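import Pool.Agent.H93.BL.Targets

/-!
# A simple criterion for convex corners (module C4)
-/

namespace Pool.Agent.H80.BL.C4

open Pool.Agent.H93.BL Set

theorem c4 (hG1 : T_G1) : T_C4 := by
  intro ι _ P j e hqp hcr hoth
  refine ⟨hqp, hcr, ?_⟩
  set A : ℂ := P.q j with hA
  have lj := P.len_pos j
  have le := P.len_pos e
  -- the other segments
  have hF : IsClosed (⋃ i ∈ {i : ι | i ≠ j ∧ i ≠ e}, segment ℝ (P.p i) (P.q i)) := by
    apply Set.Finite.isClosed_biUnion (Set.toFinite _)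
    intro i _
    rw [segment_eq_image']
    apply IsCompact.isClosed
    exact isCompact_Icc.image (by fun_prop)
  have hAF : A ∈ (⋃ i ∈ {i : ι | i ≠ j ∧ i ≠ e}, segment ℝ (P.p i) (P.q i))ᶜ := by
    intro h
    simp only [mem_iUnion, mem_ofPred_eq, exists_prop] at h
    obtain ⟨i, ⟨h1, h2⟩, h3⟩ := h
    exact hoth i h1 h2 h3
  obtain ⟨δ, hδ, hball⟩ := Metric.isOpen_iff.1 hF.isOpen_compl A hAF
  set ρ : ℝ := min (δ / 2) (min (P.len j) (P.len e)) with hρ
  have hρ0 : 0 < ρ := lt_min (by linarith) (lt_min lj le)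
  have hρδ : ρ ≤ δ / 2 := min_le_left _ _
  have hρj : ρ ≤ P.len j := (min_le_right _ _).trans (min_le_left _ _)
  refine ⟨ρ, hρ0, ?_⟩
  set φ : ℝ × ℝ → ℂ := fun z => A - (z.1 : ℂ) * P.u j + (z.2 : ℂ) * P.u e with hφ
  have hφc : Continuous φ := by
    rw [hφ]; fun_prop
  set K : Set ℂ := φ '' (Ioo 0 ρ ×ˢ Ioo 0 ρ) with hK
  have hKpre : IsPreconnected K :=
    (isPreconnected_Ioo.prod isPreconnected_Ioo).image _ hφc.continuousOn
  have hjq : A = P.p j + (P.len j : ℂ) * P.u j := P.q_eq j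
  have hKfr : ∀ y ∈ K, y ∉ frontier P.Ω := by
    rintro y ⟨⟨a, b⟩, ⟨⟨ha0, ha1⟩, ⟨hb0, hb1⟩⟩, rfl⟩ hy
    simp only at ha0 ha1 hb0 hb1
    rw [P.frontier_eq] at hy
    obtain ⟨i, hi⟩ := mem_iUnion.1 hy
    by_cases hij : i = j
    · subst hij
      obtain ⟨s, -, -, hs⟩ := (P.mem_segment_iff i _).1 hi
      have h1 : cr (P.u i) (φ (a, b)) = cr (P.u i) (P.p i) + b * cr (P.u i) (P.u e) := by
        simp only [hφ]
        rw [hjq, cr_add_right, cr_sub_right, cr_add_right, cr_smul_right, cr_smul_right,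
          cr_smul_right, cr_self]; ring
      rw [hs, cr_add_right, cr_smul_right, cr_self] at h1
      have : 0 < b * cr (P.u i) (P.u e) := mul_pos hb0 hcr
      linarith
    · by_cases hie : i = e
      · subst hie
        obtain ⟨s, -, -, hs⟩ := (P.mem_segment_iff i _).1 hi
        have h1 : cr (P.u i) (φ (a, b)) = cr (P.u i) (P.p i) - a * cr (P.u i) (P.u j) := by
          simp only [hφ]
          rw [hqp, cr_add_right, cr_sub_right, cr_smul_right, cr_smul_right, cr_self]; ring
        rw [hs, cr_add_right, cr_smul_right, cr_self, cr_swap (P.u i) (P.u j)] at h1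
        have : 0 < a * cr (P.u j) (P.u i) := mul_pos ha0 hcr
        linarith
      · have hd : φ (a, b) ∈ Metric.ball A δ := by
          rw [Metric.mem_ball, dist_eq_norm]
          have e1 : φ (a, b) - A = -((a : ℂ) * P.u j) + (b : ℂ) * P.u e := by
            simp only [hφ]; ring
          rw [e1]
          calc ‖-((a : ℂ) * P.u j) + (b : ℂ) * P.u e‖
              ≤ ‖-((a : ℂ) * P.u j)‖ + ‖(b : ℂ) * P.u e‖ := norm_add_le _ _
            _ = a + b := by
                rw [norm_neg, norm_mul, norm_mul, P.norm_u, P.norm_u, Complex.norm_real,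
                  Complex.norm_real, Real.norm_of_nonneg ha0.le, Real.norm_of_nonneg hb0.le]
                ring
            _ < δ := by linarith
        have := hball hd
        apply this
        simp only [mem_iUnion, mem_ofPred_eq, exists_prop]
        exact ⟨i, ⟨hij, hie⟩, hi⟩
  have hKsub : K ⊆ P.Ω ∪ (closure P.Ω)ᶜ := by
    intro y hy
    by_cases h : y ∈ closure P.Ω
    · left
      by_contra hn
      apply hKfr y hy
      rw [frontier, P.isOpen.interior_eq]
      exact ⟨h, hn⟩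
    · exact Or.inr h
  have hKne : (K ∩ P.Ω).Nonempty := by
    have hx : A - ((ρ / 2 : ℝ) : ℂ) * P.u j ∈ openSegment ℝ (P.p j) (P.q j) := by
      refine (P.mem_openSegment_iff j _).2 ⟨P.len j - ρ / 2, by linarith, by linarith, ?_⟩
      rw [hjq]; push_cast; ring
    obtain ⟨ρ', hρ', h1, -⟩ := hG1 ι P j _ hx
    set b : ℝ := min (ρ / 2) (ρ' / 2) with hb
    have hb0 : 0 < b := lt_min (by linarith) (by linarith)
    have hbρ : b < ρ := lt_of_le_of_lt (min_le_left _ _) (by linarith)
    have hbρ' : b < ρ' := lt_of_le_of_lt (min_le_right _ _) (by linarith)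
    refine ⟨φ (ρ / 2, b), ⟨(ρ / 2, b), ⟨⟨by simp only; linarith, by simp only; linarith⟩,
      ⟨hb0, hbρ⟩⟩, rfl⟩, ?_⟩
    have e1 : φ (ρ / 2, b) - (A - ((ρ / 2 : ℝ) : ℂ) * P.u j) = (b : ℂ) * P.u e := by
      simp only [hφ]; ring
    apply h1
    · rw [dist_eq_norm, e1, norm_mul, P.norm_u, Complex.norm_real, Real.norm_of_nonneg hb0.le,
        mul_one]
      exact hbρ'
    · rw [e1, ip_smul_left, P.ip_n]
      exact mul_pos hb0 hcr
  have hsub : K ⊆ P.Ω := by
    refine IsPreconnected.subset_left_of_subset_union P.isOpen isClosed_closure.isOpen_compl ?_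
      hKsub hKne hKpre
    exact disjoint_compl_right.mono_left subset_closure
  intro a ha b hb
  exact hsub ⟨(a, b), ⟨ha, hb⟩, rfl⟩

end Pool.Agent.H80.BL.C4
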