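import Pool.Agent.H93.BL.Targets

/-!
# The corners of a convex quadrilateral (module C5)
-/

namespace Pool.Agent.H80.BL.C5

open Pool.Agent.H93.BL

theorem c5 (hC4 : T_C4) : T_C5 := by
  intro P hq hc i
  refine hC4 (Fin 4) P i (i + 1) (hq i) (hc i) ?_
  intro k hk1 hk2
  have hk : k = i + 2 ∨ k = i + 3 := by
    revert hk1 hk2; revert i k; decide
  have e2 : i + 1 + 1 = i + 2 := by rw [add_assoc]; rfl
  have e3 : i + 2 + 1 = i + 3 := by rw [add_assoc]; rfl
  have e4 : i + 3 + 1 = i := by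
    rw [add_assoc]
    have : (3 : Fin 4) + 1 = 0 := rfl
    rw [this, add_zero]
  have q1 : P.q (i + 1) = P.p (i + 2) := by rw [hq, e2]
  have q2 : P.q (i + 2) = P.p (i + 3) := by rw [hq, e3]
  have q3 : P.q (i + 3) = P.p i := by rw [hq, e4]
  have q0 : P.q i = P.p (i + 1) := hq i
  -- `p (i+1) ≠ p (i+3)`
  have hne13 : P.p (i + 1) ≠ P.p (i + 3) := by
    intro h
    have hu := P.u_reversed (i := i + 1) (j := i + 2) q1.symm (by rw [q2, ← h])
    have := hc (i + 1)
    rw [e2, hu, cr_neg_right, cr_self, neg_zero] at this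
    exact lt_irrefl _ this
  have hne12 : P.p (i + 1) ≠ P.p (i + 2) := by
    rw [← q1]; exact P.ne (i + 1)
  have hne10 : P.p (i + 1) ≠ P.p i := by
    rw [← q0]; exact (P.ne i).symm
  have hA : P.q i ∈ segment ℝ (P.p i) (P.q i) := right_mem_segment _ _ _
  have hseg : ∀ m : Fin 4, m ≠ i → ¬ (P.p i = P.q m ∧ P.q i = P.p m) →
      P.q i ≠ P.p m → P.q i ≠ P.q m → P.q i ∉ segment ℝ (P.p m) (P.q m) := by
    intro m hm hrev h1 h2 hmem
    rcases P.meet m i hm with hd | hr
    · have hopen : P.q i ∉ openSegment ℝ (P.p m) (P.q m) := fun h =>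
        Set.disjoint_left.1 hd h hA
      rw [← insert_endpoints_openSegment] at hmem
      rcases hmem with h | h | h
      · exact h1 h
      · exact h2 h
      · exact hopen h
    · exact hrev hr
  rcases hk with rfl | rfl
  · refine hseg _ hk1 ?_ ?_ ?_
    · rintro ⟨h1, h2⟩
      rw [q0] at h2
      exact hne12 h2
    · rw [q0]; exact hne12
    · rw [q0, q2]; exact hne13
  · refine hseg _ hk1 ?_ ?_ ?_
    · rintro ⟨h1, h2⟩
      rw [q0] at h2
      exact hne13 h2
    · rw [q0]; exact hne13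
    · rw [q0, q3]; exact hne10

end Pool.Agent.H80.BL.C5
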