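import Pool.Agent.H93.BL.Targets

/-!
# The inverse branch of the billiard map (module M3)
-/

namespace Pool.Agent.H80.BL.M3

open Pool.Agent.H93.BL Set

theorem m3 (_h : T_B1) : T_M3 := by
  intro ι P i j
  have hni : P.n i ≠ 0 := by
    intro h; have := P.norm_n i; rw [h, norm_zero] at this; exact zero_ne_one this
  set ζ : ℂ := -(P.n j) / P.n i with hζ
  have hζn : ‖ζ‖ = 1 := by
    rw [hζ, norm_div, norm_neg, P.norm_n, P.norm_n]; norm_num
  set α : ℝ := Complex.arg ζ with hα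
  refine ⟨α, fun y => -(Real.cos (α - y) * cr (P.n i) (P.p j - P.p i) -
    Real.sin (α - y) * cr (P.u i) (P.p j - P.p i)), by fun_prop, ?_⟩
  intro s φ s' φ' hstep
  obtain ⟨hz, hz', t, ht, hpos, -, hdir⟩ := hstep
  -- the angle
  have h1 : P.dir (i, s, φ) = -P.dir (j, s', -φ') := by
    rw [← P.refl_dir j s' φ', hdir, P.refl_refl]
  have h2 : Complex.exp (((φ + φ' : ℝ) : ℂ) * Complex.I) = ζ := by
    have h3 : P.n i * Complex.exp ((φ : ℂ) * Complex.I) =
        -(P.n j * Complex.exp (((-φ' : ℝ) : ℂ) * Complex.I)) := h1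
    have h4 : Complex.exp (((-φ' : ℝ) : ℂ) * Complex.I) * Complex.exp ((φ' : ℂ) * Complex.I) = 1 := by
      rw [← Complex.exp_add]
      rw [show ((-φ' : ℝ) : ℂ) * Complex.I + (φ' : ℂ) * Complex.I = 0 by push_cast; ring]
      exact Complex.exp_zero
    rw [hζ, eq_div_iff hni]
    rw [show ((φ + φ' : ℝ) : ℂ) * Complex.I = (φ : ℂ) * Complex.I + (φ' : ℂ) * Complex.I by
      push_cast; ring, Complex.exp_add]
    calc Complex.exp ((φ : ℂ) * Complex.I) * Complex.exp ((φ' : ℂ) * Complex.I) * P.n i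
        = (P.n i * Complex.exp ((φ : ℂ) * Complex.I)) * Complex.exp ((φ' : ℂ) * Complex.I) := by
          ring
      _ = -(P.n j) * (Complex.exp (((-φ' : ℝ) : ℂ) * Complex.I) *
            Complex.exp ((φ' : ℂ) * Complex.I)) := by rw [h3]; ring
      _ = -(P.n j) := by rw [h4, mul_one]
  have hφ1 := hz.2.2.1
  have hφ2 := hz.2.2.2
  have hφ1' := hz'.2.2.1
  have hφ2' := hz'.2.2.2
  simp only at hφ1 hφ2 hφ1' hφ2'
  have h5 : α = φ + φ' := by
    rw [hα, ← h2, Complex.exp_mul_I, ← Complex.ofReal_cos, ← Complex.ofReal_sin]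
    rw [Complex.ofReal_cos, Complex.ofReal_sin]
    exact Complex.arg_cos_add_sin_mul_I ⟨by linarith, by linarith⟩
  have h6 : φ = α - φ' := by rw [h5]; ring
  refine ⟨h6, ?_⟩
  -- the position
  have hcos : 0 < Real.cos φ := P.cos_pos_of_phase hz
  rw [← h6]
  set v : ℂ := P.dir (i, s, φ) with hv
  have e1 : cr v (P.pos (j, s', φ')) = cr v (P.pos (i, s, φ)) := by
    rw [hpos, cr_add_right, cr_smul_right, cr_self]; ring
  have e2 : cr v (P.u i) = -Real.cos φ := by
    rw [P.cr_u]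
    have := P.ip_dir_n (i, s, φ)
    simp only at this
    rw [hv, this]
  have e3 : cr v (P.u j) = Real.cos φ' := by
    rw [P.cr_u]
    have h7 : v = P.refl j (P.dir (j, s', φ')) := by
      rw [hdir, P.refl_refl]
    rw [h7, P.ip_refl_n]
    have := P.ip_dir_n (j, s', φ')
    simp only at this
    rw [this]; ring
  have e4 : cr v (P.p j - P.p i) = Real.cos φ * cr (P.n i) (P.p j - P.p i) -
      Real.sin φ * cr (P.u i) (P.p j - P.p i) := by
    rw [hv, P.dir_eq, cr_sub_left, cr_smul_left, cr_smul_left]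
  unfold Polygon.pos at e1
  simp only at e1
  rw [cr_add_right, cr_add_right, cr_smul_right, cr_smul_right, e2, e3] at e1
  rw [cr_sub_right] at e4
  rw [eq_div_iff hcos.ne']
  beta_reduce
  rw [← h6, ← e4]
  linarith

end Pool.Agent.H80.BL.M3
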