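import Pool.Agent.H93.BL.Targets

/-!
# Triangles are good (module TRI)
-/

namespace Pool.Agent.H80.BL.TRI

open Pool.Agent.H93.BL

lemma sum_zero (P : Polygon (Fin 3)) (hq : ∀ i, P.q i = P.p (i + 1)) :
    (P.len 0 : ℂ) * P.u 0 + (P.len 1 : ℂ) * P.u 1 + (P.len 2 : ℂ) * P.u 2 = 0 := by
  rw [← P.q_sub 0, ← P.q_sub 1, ← P.q_sub 2, hq 0, hq 1, hq 2]
  have h1 : (0 : Fin 3) + 1 = 1 := rfl
  have h2 : (1 : Fin 3) + 1 = 2 := rfl
  have h3 : (2 : Fin 3) + 1 = 0 := rfl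
  rw [h1, h2, h3]; ring

lemma cr_pos (P : Polygon (Fin 3)) (hq : ∀ i, P.q i = P.p (i + 1))
    (h0 : 0 < cr (P.u 0) (P.u 1)) (i : Fin 3) : 0 < cr (P.u i) (P.u (i + 1)) := by
  have hs := sum_zero P hq
  have l0 := P.len_pos 0
  have l1 := P.len_pos 1
  have l2 := P.len_pos 2
  have e1 : P.len 0 * cr (P.u 1) (P.u 0) + P.len 1 * cr (P.u 1) (P.u 1) +
      P.len 2 * cr (P.u 1) (P.u 2) = 0 := by
    rw [← cr_smul_right, ← cr_smul_right, ← cr_smul_right, ← cr_add_right, ← cr_add_right, hs]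
    unfold cr; simp
  have e0 : P.len 0 * cr (P.u 0) (P.u 0) + P.len 1 * cr (P.u 0) (P.u 1) +
      P.len 2 * cr (P.u 0) (P.u 2) = 0 := by
    rw [← cr_smul_right, ← cr_smul_right, ← cr_smul_right, ← cr_add_right, ← cr_add_right, hs]
    unfold cr; simp
  rw [cr_self] at e1 e0
  rw [cr_swap (P.u 1) (P.u 0)] at e1
  rw [cr_swap (P.u 0) (P.u 2)] at e0
  fin_cases i
  · exact h0
  · change 0 < cr (P.u 1) (P.u 2)
    by_contra hc
    push Not at hc
    nlinarith [mul_pos l0 h0, mul_nonneg l2.le (neg_nonneg.2 hc)]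
  · change 0 < cr (P.u 2) (P.u 0)
    by_contra hc
    push Not at hc
    nlinarith [mul_pos l1 h0, mul_nonneg l2.le (neg_nonneg.2 hc)]

lemma mid_mem (P : Polygon (Fin 3)) (j : Fin 3) : ∃ x, x ∈ openSegment ℝ (P.p j) (P.q j) := by
  refine ⟨P.p j + ((P.len j / 2 : ℝ) : ℂ) * P.u j, (P.mem_openSegment_iff j _).2
    ⟨P.len j / 2, ?_, ?_, rfl⟩⟩
  · have := P.len_pos j; linarith
  · have := P.len_pos j; linarith

theorem tri : T_TRI := by
  intro P hq h0 i
  have hc := cr_pos P hq h0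
  have key : ∀ j : Fin 3, j ≠ i → 0 < ip (P.u (i + 2) - P.u (i + 1)) (P.n j) := by
    intro j hj
    rw [P.ip_n, cr_sub_right]
    have hj' : j = i + 1 ∨ j = i + 2 := by
      revert hj; revert i j; decide
    rcases hj' with rfl | rfl
    · rw [cr_self, sub_zero]
      have := hc (i + 1)
      rwa [show i + 1 + 1 = i + 2 by rw [add_assoc]; rfl] at this
    · rw [cr_self, zero_sub, ← cr_swap]
      have := hc (i + 1)
      rwa [show i + 1 + 1 = i + 2 by rw [add_assoc]; rfl] at this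
  have hw : ∀ j : Fin 3, j ≠ i → ∀ x : ℂ,
      0 < ip ((P.u (i + 2) - P.u (i + 1)) + ((0 : ℝ) : ℂ) * (Complex.I * x)) (P.n j) := by
    intro j hj x
    rw [Complex.ofReal_zero, zero_mul, add_zero]
    exact key j hj
  refine Polygon.Good.killing {i} (P.u (i + 2) - P.u (i + 1)) 0 ?_ ?_
  · intro j hj x _
    exact (hw j hj x).le
  · refine Polygon.Good.rational _ ?_
    intro a ha
    exfalso
    apply ha
    by_cases hai : a = i
    · exact Or.inl hai
    · right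
      obtain ⟨x, hx⟩ := mid_mem P a
      exact ⟨x, hx, hw a hai x⟩

end Pool.Agent.H80.BL.TRI
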